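import Pool.Agent.UIM.Main

/-!
`log m = b + O_k (b / (log b) ^ k)` for every `k`.
-/

set_option autoImplicit false

open Finset

namespace Pool.Agent.UIM55

open Pool.Agent.P30.UnitInterval Pool.Agent.UIM

lemma psi_pntK (k : ℕ) : ∃ C : ℝ, 0 < C ∧ ∀ b : ℕ, 2 ≤ b →
    |Chebyshev.psi b - b| ≤ C * (b / Real.log b ^ k) := by
  obtain ⟨C, hC, h⟩ := Pool.Agent.ANT.psi_pnt k
  refine ⟨C + 13, by linarith, ?_⟩
  intro b hb
  have hbR : (2 : ℝ) ≤ b := by exact_mod_cast hb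
  have hlog : 0 < Real.log b := Real.log_pos (by linarith)
  have hlogk : 0 < Real.log b ^ k := pow_pos hlog k
  have hpos : 0 ≤ (b : ℝ) / Real.log b ^ k := by positivity
  have hl4 := log_four_le
  rcases Nat.lt_or_ge b 3 with h3 | h3
  · have h1 := Chebyshev.psi_le_const_mul_self (x := (b : ℝ)) (by linarith)
    have h2 := Chebyshev.psi_nonneg (b : ℝ)
    have hb2 : b = 2 := by omega
    have hbe : (b : ℝ) = 2 := by rw [hb2]; norm_num
    have h4 : |Chebyshev.psi b - b| ≤ 13 := by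
      rw [abs_le]
      rw [hbe] at h1 h2 ⊢
      constructor <;> linarith
    have h5 : 1 ≤ (b : ℝ) / Real.log b ^ k := by
      rw [le_div_iff₀ hlogk]
      have h6 : Real.log b ≤ 1 := by
        rw [hbe]
        have := Real.log_two_lt_d9
        linarith
      have h7 : Real.log b ^ k ≤ 1 := pow_le_one₀ hlog.le h6
      linarith
    nlinarith
  · have hb3 : (3 : ℝ) ≤ b := by exact_mod_cast h3
    have h1 := h b hb3
    rw [Nat.floor_natCast] at h1
    have h2 : Chebyshev.psi (b : ℝ) = ∑ n ∈ Finset.Icc 1 b, ArithmeticFunction.vonMangoldt n := by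
      unfold Chebyshev.psi
      rw [Nat.floor_natCast]
      rfl
    rw [h2]
    calc _ ≤ C * (b : ℝ) / Real.log b ^ k := h1
      _ = C * ((b : ℝ) / Real.log b ^ k) := by ring
      _ ≤ (C + 13) * ((b : ℝ) / Real.log b ^ k) := by nlinarith

/-- `log m = b + O_k (b / (log b) ^ k)` for every `k` -/
theorem sizeK (k : ℕ) : ∃ C : ℝ, ∀ a b m s : ℕ, 2 ≤ b → Sol a b m s →
    |Real.log m - b| ≤ C * (b / Real.log b ^ k) := by
  obtain ⟨C, hC, hpsi⟩ := psi_pntK k
  obtain ⟨L, hL, hlogL⟩ := Pool.Agent.ANT.log_pow_le_rpow k (show (0 : ℝ) < 1 / 3 by norm_num)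
  refine ⟨C + 29 * L, ?_⟩
  intro a b m s hb h
  obtain ⟨D, hD, hlogD⟩ := cofactor h
  have hbR : (2 : ℝ) ≤ b := by exact_mod_cast hb
  have hb0 : (0 : ℝ) < b := by linarith
  have hlog : 0 < Real.log b := Real.log_pos (by linarith)
  have hlogk : 0 < Real.log b ^ k := pow_pos hlog k
  have hm0 : (m : ℝ) ≠ 0 := by
    have := h.hm
    exact_mod_cast (by omega : m ≠ 0)
  have hD0 : D ≠ 0 := by
    intro h0
    rw [h0, Nat.mul_zero] at hD
    exact Nat.lcmUpto_ne_zero b hD.symm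
  have hD0' : (D : ℝ) ≠ 0 := by exact_mod_cast hD0
  have h1 : Real.log m + Real.log D = Chebyshev.psi b := by
    rw [Chebyshev.psi_eq_log_lcmUpto, ← hD]
    push_cast
    rw [Real.log_mul hm0 hD0']
  have hlD0 : 0 ≤ Real.log D := Real.log_nonneg (by exact_mod_cast Nat.pos_of_ne_zero hD0)
  have h2 := hpsi b hb
  have h3 : (b : ℝ) ^ (2 / 3 : ℝ) ≤ L * (b / Real.log b ^ k) := by
    have e1 := hlogL b (by linarith)
    have e2 : (b : ℝ) = (b : ℝ) ^ (2 / 3 : ℝ) * (b : ℝ) ^ (1 / 3 : ℝ) := by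
      rw [← Real.rpow_add hb0]
      norm_num
    have e3 : 0 ≤ (b : ℝ) ^ (2 / 3 : ℝ) := Real.rpow_nonneg hb0.le _
    rw [← mul_div_assoc, le_div_iff₀ hlogk]
    calc (b : ℝ) ^ (2 / 3 : ℝ) * Real.log b ^ k ≤
          (b : ℝ) ^ (2 / 3 : ℝ) * (L * (b : ℝ) ^ (1 / 3 : ℝ)) :=
          mul_le_mul_of_nonneg_left e1 e3
      _ = L * ((b : ℝ) ^ (2 / 3 : ℝ) * (b : ℝ) ^ (1 / 3 : ℝ)) := by ring
      _ = L * b := by rw [← e2]
  have h4 : Real.log D ≤ 29 * L * (b / Real.log b ^ k) := by linarith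
  rw [abs_le] at h2 ⊢
  constructor <;> nlinarith [h2.1, h2.2]

end Pool.Agent.UIM55
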